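import Pool.Agent.Zk56.UV.Final

/-!
MP_921603_an, Q1: for all `N ≥ 1` and `1 ≤ q ≤ N` the polynomial `F(q, ·)` is univalent in the
open unit disc.
-/

set_option autoImplicit false

namespace Pool.Agent.Results.MP_921603_an.Univalent

open Polynomial Finset
open Polynomial.Chebyshev (U)

/-- The node `x_N = cos (π / (N + 2))`. -/
noncomputable def xN (N : ℕ) : ℝ := Real.cos (Real.pi / (N + 2))

/-- The polynomial `F(q, z)` of the problem, for a given `N`:
`F(q, z) = 1 / (U_{q-1}(x_N) U_N'(x_N)) * ∑_{j=1}^N U_{N-j+1}'(x_N) U_{jq-1}(x_N) z^j`,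
where `U` is the Chebyshev polynomial of the second kind of Mathlib. -/
noncomputable def F (N q : ℕ) (z : ℂ) : ℂ :=
  ((1 / ((U ℝ ((q : ℤ) - 1)).eval (xN N) * (derivative (U ℝ (N : ℤ))).eval (xN N)) : ℝ) : ℂ)
    * ∑ j ∈ Icc 1 N,
      (((derivative (U ℝ ((N : ℤ) - j + 1))).eval (xN N)
        * (U ℝ ((j : ℤ) * q - 1)).eval (xN N) : ℝ) : ℂ) * z ^ j

open Pool.Agent.Zk56.UV

theorem xN_eq (N : ℕ) : xN N = Real.cos (ph (N + 2)) := by
  unfold xN ph
  push_cast
  rfl

/-- values of `U_{j q - 1}` -/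
theorem U_val (n : ℕ) (k : ℤ) :
    (U ℝ (k - 1)).eval (Real.cos (ph n)) * Real.sin (ph n) = Real.sin (k * ph n) := by
  have h := Polynomial.Chebyshev.U_real_cos (ph n) (k - 1)
  rw [h]
  push_cast
  congr 1
  ring

/-- values of the derivative -/
theorem U_deriv (n : ℕ) (k : ℤ) :
    (derivative (U ℝ k)).eval (Real.cos (ph n)) * Real.sin (ph n) ^ 3
      = Real.cos (ph n) * Real.sin ((k + 1) * ph n)
        - (k + 1) * Real.sin (ph n) * Real.cos ((k + 1) * ph n) := by
  have h := congrArg (Polynomial.eval (Real.cos (ph n)))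
    (Polynomial.Chebyshev.add_one_mul_T_eq_poly_in_U (R := ℝ) k)
  have hU := Polynomial.Chebyshev.U_real_cos (ph n) k
  have hT := Polynomial.Chebyshev.T_real_cos (ph n) (k + 1)
  have hs := Real.sin_sq_add_cos_sq (ph n)
  simp only [eval_mul, eval_add, eval_sub, eval_one, eval_pow, eval_X, eval_intCast] at h
  rw [hT] at h
  push_cast at h
  rw [← hU]
  linear_combination (Real.sin (ph n)) * h
    + ((derivative (U ℝ k)).eval (Real.cos (ph n)) * Real.sin (ph n)) * hs

theorem U_deriv_wt (n j : ℕ) (hn : 0 < n) :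
    (derivative (U ℝ ((n : ℤ) - j - 1))).eval (Real.cos (ph n)) * Real.sin (ph n) ^ 3
      = wt n j := by
  rw [U_deriv]
  have h : (((n : ℤ) - j - 1 : ℤ) + 1 : ℝ) * ph n = Real.pi - j * ph n := by
    rw [← ph_mul n hn]
    push_cast
    ring
  rw [h, Real.sin_pi_sub, Real.cos_pi_sub]
  unfold wt
  push_cast
  ring

/-- the polynomial as a multiple of the auxiliary polynomial -/
theorem F_eq (N q : ℕ) (hN : 1 ≤ N) (z : ℂ) :
    F N q z = ((1 / ((U ℝ ((q : ℤ) - 1)).eval (xN N) * (derivative (U ℝ (N : ℤ))).eval (xN N))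
      * (1 / Real.sin (ph (N + 2)) ^ 4) : ℝ) : ℂ) * (Pp (N + 2) q).eval z := by
  have hs := sin_ph_pos (N + 2) (by omega)
  unfold F
  rw [Complex.ofReal_mul, mul_assoc]
  congr 1
  rw [Pp_eval, mul_sum]
  have hsub : Icc 1 N ⊆ range (N + 2) := fun j hj => by
    rw [mem_Icc] at hj
    exact mem_range.2 (by omega)
  rw [← sum_subset hsub]
  · refine sum_congr rfl fun j hj => ?_
    rw [mem_Icc] at hj
    rw [← mul_assoc]
    congr 1
    rw [← Complex.ofReal_mul]
    congr 1
    have h1 := U_deriv_wt (N + 2) j (by omega)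
    have h2 := U_val (N + 2) ((j : ℤ) * q)
    have e1 : (((N + 2 : ℕ) : ℤ) - j - 1) = (N : ℤ) - j + 1 := by push_cast; ring
    rw [e1] at h1
    have e2 : (((j : ℤ) * q : ℤ) : ℝ) * ph (N + 2) = j * (q * ph (N + 2)) := by
      push_cast
      ring
    rw [e2] at h2
    rw [xN_eq, ← h1, ← h2]
    field_simp
  · intro j hj hj'
    rw [mem_range] at hj
    rw [mem_Icc] at hj'
    have hj2 : j = 0 ∨ j = N + 1 := by omega
    rcases hj2 with rfl | rfl
    · simp
    · have h := wt_refl (N + 2) 1 (by omega) (by omega)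
      have h' : wt (N + 2) (N + 1) = 0 := by
        rw [show N + 2 - 1 = N + 1 from rfl] at h
        rw [h]
        push_cast
        rw [one_mul]
        ring
      rw [h']
      simp

/-- **Main result.** For every `N ≥ 1` and every `q ∈ {1, …, N}` the polynomial `F(q, ·)` is
univalent (holomorphic and injective) in the open unit disc. -/
theorem result : ∀ N q : ℕ, 1 ≤ N → 1 ≤ q → q ≤ N →
    DifferentiableOn ℂ (F N q) (Metric.ball 0 1) ∧ Set.InjOn (F N q) (Metric.ball 0 1) := by
  intro N q hN hq1 hqN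
  constructor
  · unfold F
    apply Differentiable.differentiableOn
    fun_prop
  have hs := sin_ph_pos (N + 2) (by omega)
  have hU : (U ℝ ((q : ℤ) - 1)).eval (xN N) ≠ 0 := by
    intro h
    have h1 := U_val (N + 2) q
    rw [← xN_eq, h, zero_mul] at h1
    have h2 := sin_mul_ph_pos (N + 2) q (by omega) (by omega)
    rw [Int.cast_natCast] at h1
    linarith
  have hd : (derivative (U ℝ (N : ℤ))).eval (xN N) ≠ 0 := by
    intro h
    have h1 := U_deriv_wt (N + 2) 1 (by omega)
    have e1 : (((N + 2 : ℕ) : ℤ) - (1 : ℕ) - 1) = (N : ℤ) := by push_cast; ring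
    rw [e1, ← xN_eq, h, zero_mul] at h1
    have h2 := wt_pos (N + 2) 1 (by omega)
    linarith
  have hc : ((1 / ((U ℝ ((q : ℤ) - 1)).eval (xN N) * (derivative (U ℝ (N : ℤ))).eval (xN N))
      * (1 / Real.sin (ph (N + 2)) ^ 4) : ℝ) : ℂ) ≠ 0 := by
    rw [Complex.ofReal_ne_zero]
    exact mul_ne_zero (one_div_ne_zero (mul_ne_zero hU hd)) (one_div_ne_zero (pow_ne_zero 4 hs.ne'))
  intro z hz w hw he
  simp only [F_eq N q hN] at he
  have he' := mul_left_cancel₀ hc he
  rcases Nat.lt_or_ge 1 N with hN2 | hN2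
  · exact main_inj (N + 2) q (by omega) hq1 (by omega) hz hw he'
  · have hN1 : N = 1 := by omega
    subst hN1
    have hq : q = 1 := by omega
    subst hq
    have h2 : wt 3 2 = 0 := by
      have h := wt_refl 3 1 (by omega) (by omega)
      rw [show 3 - 1 = 2 from rfl] at h
      rw [h]
      push_cast
      rw [one_mul]
      ring
    have hev : ∀ z : ℂ, (Pp (1 + 2) 1).eval z
        = ((wt 3 1 * Real.sin ((1 : ℕ) * ((1 : ℕ) * ph 3)) : ℝ) : ℂ) * z := by
      intro z
      rw [Pp_eval, sum_range_succ, sum_range_succ, sum_range_succ, h2]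
      simp
    rw [hev, hev] at he'
    have h3 := wt_pos 3 1 (by omega)
    have h4 := sin_mul_ph_pos 3 1 (by omega) (by omega)
    refine mul_left_cancel₀ ?_ he'
    rw [Complex.ofReal_ne_zero, Nat.cast_one, one_mul]
    rw [Nat.cast_one] at h4
    exact (mul_pos h3 h4).ne'

end Pool.Agent.Results.MP_921603_an.Univalent
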